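import Pool.Agent.helper91.SI.Spec

set_option autoImplicit false

namespace Pool.Agent.helper91.SI

theorem STA : STA_stmt := by
  intro V _ G hc h3
  classical
  let P : ℕ → Prop := fun n => ∃ l : List V, l.Nodup ∧ l.IsChain G.Adj ∧ l.length = n
  have hb : ∀ n, P n → n ≤ Fintype.card V := by
    rintro n ⟨l, h1, -, rfl⟩
    exact h1.length_le_card
  have hP0 : P 0 := ⟨[], List.nodup_nil, List.isChain_nil, rfl⟩
  have hN : P (Nat.findGreatest P (Fintype.card V)) := Nat.findGreatest_spec (Nat.zero_le _) hP0
  have hmax : ∀ n, P n → n ≤ Nat.findGreatest P (Fintype.card V) := fun n hn =>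
    Nat.le_findGreatest (hb n hn) hn
  obtain ⟨l, hd, hch, hl⟩ := hN
  rw [← hl] at hmax
  have hne : l ≠ [] := by
    rintro rfl
    obtain ⟨v⟩ := hc.nonempty
    have := hmax 1 ⟨[v], List.nodup_singleton v, List.isChain_singleton v, rfl⟩
    simp at this
  have hall : ∀ v, v ∈ l := by
    by_contra hcon
    push Not at hcon
    obtain ⟨v, hv⟩ := hcon
    obtain ⟨u, hu⟩ := List.exists_mem_of_ne_nil l hne
    obtain ⟨p⟩ := hc.preconnected u v
    obtain ⟨d, -, hd1, hd2⟩ := p.exists_boundary_dart {x | x ∈ l} hu hv
    have hx : d.fst ∈ l := hd1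
    have hy : d.snd ∉ l := hd2
    have hadj : G.Adj d.fst d.snd := d.adj
    obtain ⟨l1, l2, hs⟩ := List.append_of_mem hx
    rcases List.eq_nil_or_concat' l1 with h1 | ⟨l1', a, h1⟩
    · subst h1
      have hch' : (d.snd :: l).IsChain G.Adj := by
        rw [hs, List.nil_append, List.isChain_cons_cons]
        refine ⟨hadj.symm, ?_⟩
        rw [hs, List.nil_append] at hch
        exact hch
      have := hmax (l.length + 1) ⟨d.snd :: l, List.nodup_cons.2 ⟨hy, hd⟩, hch', rfl⟩
      omega
    · rcases l2 with _ | ⟨b, l2'⟩
      · have hch' : (l ++ [d.snd]).IsChain G.Adj := by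
          rw [List.isChain_append]
          refine ⟨hch, List.isChain_singleton _, ?_⟩
          intro z hz w hw
          rw [hs] at hz
          simp at hz hw
          rw [← hz, ← hw]
          exact hadj
        have := hmax (l.length + 1) ⟨l ++ [d.snd], by
          rw [List.nodup_append]
          refine ⟨hd, List.nodup_singleton _, ?_⟩
          intro z hz w hw
          simp at hw
          rw [hw]
          rintro rfl
          exact hy hz, hch', by simp⟩
        omega
      · apply h3
        rw [hs, h1] at hch hd hy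
        have e : (l1' ++ [a]) ++ d.fst :: b :: l2' = l1' ++ a :: d.fst :: b :: l2' := by simp
        rw [e] at hch hd hy
        have hc2 : (a :: d.fst :: b :: l2').IsChain G.Adj := (List.isChain_append.1 hch).2.1
        rw [List.isChain_cons_cons, List.isChain_cons_cons] at hc2
        have hnd : (a :: d.fst :: b :: l2').Nodup := (List.nodup_append.1 hd).2.1
        simp only [List.nodup_cons, List.mem_cons, not_or] at hnd
        simp only [List.mem_append, List.mem_cons, not_or] at hy
        exact ⟨d.fst, a, b, d.snd, hc2.1.symm, hc2.2.1, hadj, hnd.1.2.1, fun h => hy.2.1 h.symm,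
          fun h => hy.2.2.2.1 h.symm⟩
  refine ⟨l.length, hd.getEquivOfForallMemList l hall, ?_⟩
  intro i j hij
  rw [List.isChain_iff_getElem] at hch
  have h1 : j.val = i.val + 1 := hij.symm
  have h2 := hch i.val (by have := j.isLt; omega)
  have h3 : (hd.getEquivOfForallMemList l hall) i = l[i.val] := rfl
  have h4 : (hd.getEquivOfForallMemList l hall) j = l[j.val] := rfl
  rw [h3, h4]
  simp only [h1]
  exact h2

end Pool.Agent.helper91.SI
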